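import Pool.Agent.L0h4.TW.Rcp
import Pool.Agent.Y698.Er

/-!
# Normalised generators of the split primes of `ℚ(√-7)`
-/

set_option autoImplicit false

namespace Pool.Agent.L0h75

open Pool.Agent.Y698 Pool.Agent.L0h4.TW

theorem exists_cho {p : ℕ} (h : SpP p) : ∃ x : RR, nR x = p ∧ N1 x := by
  have hp2 : p ≠ 2 := by
    rintro rfl
    exact absurd h.odd (by norm_num)
  rcases irr_or_norm h.pr with hirr | ⟨g, hg⟩
  · exact absurd h.sq (nonsq_of_irr h.pr hp2 hirr)
  · have ho : nR g % 2 = 1 := by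
      rw [hg]
      have := h.odd
      omega
    obtain ⟨h1, h2⟩ := par ho
    by_cases h4 : cX g % 4 = 1
    · exact ⟨g, hg, (N1_iff ho).2 h4⟩
    · have hn : nR (-g) = p := by
        rw [← hg]
        unfold nR
        rw [(cXY_neg g).1, (cXY_neg g).2]
        ring
      refine ⟨-g, hn, (N1_iff (by rw [hn, ← hg]; exact ho)).2 ?_⟩
      rw [(cXY_neg g).1]
      omega

theorem exists_Cho (P : Finset ℕ) (hP : ∀ p ∈ P, SpP p) : ∃ w : ℕ → RR, Cho w P := by
  classical
  refine ⟨fun p => if h : SpP p then (exists_cho h).choose else 1, fun p hp => ?_⟩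
  simp only [dif_pos (hP p hp)]
  exact (exists_cho (hP p hp)).choose_spec

end Pool.Agent.L0h75
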