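import Pool.Agent.Y698.Uc

/-!
# The index at a place above `D` where `-7` is not a square (no condition on `-1`)
-/

set_option autoImplicit false
set_option linter.unusedSectionVars false

namespace Pool.Agent.Y698

open WeierstrassCurve WithZero

section algx

variable {L : Type} [Field L] [CharZero L] {W : WeierstrassCurve L} {e α β : L} (S : Wr W e α β)
  [DecidableEq L]

include S in
/-- the norms of the three points of a line -/
theorem Wr.line3 {X₁ Y₁ X₂ Y₂ X₃ Y₃ : L} {h₁ : W.toAffine.Nonsingular X₁ Y₁}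
    {h₂ : W.toAffine.Nonsingular X₂ Y₂} {h₃ : W.toAffine.Nonsingular X₃ Y₃}
    (h : (.some X₁ Y₁ h₁ : W.toAffine.Point) + .some X₂ Y₂ h₂ = .some X₃ Y₃ h₃) :
    ∃ l ν : L, ((X₁ - e) ^ 2 + α * (X₁ - e) + β) * ((X₂ - e) ^ 2 + α * (X₂ - e) + β) *
      ((X₃ - e) ^ 2 + α * (X₃ - e) + β) = (ν ^ 2 - α * l * ν + β * l ^ 2) ^ 2 := by
  have hxy : ¬ (X₁ = X₂ ∧ Y₁ = W.toAffine.negY X₂ Y₂) := by
    rintro ⟨e1, e2⟩
    rw [Affine.Point.add_of_Y_eq e1 e2] at h
    exact Affine.Point.some_ne_zero _ h.symm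
  rw [Affine.Point.add_some hxy, Affine.Point.some.injEq] at h
  obtain ⟨hX, -⟩ := h
  have e1 := S.eqn h₁.1
  have e2 := S.eqn h₂.1
  set l := W.toAffine.slope X₁ X₂ Y₁ Y₂ with hl
  have hX' : X₃ = l ^ 2 - (α - 3 * e) - X₁ - X₂ := by
    rw [← hX]
    simp only [Affine.addX, S.k1, S.k2]
    ring
  obtain ⟨ν, hν⟩ : ∃ ν, ν = Y₁ - l * (X₁ - e) := ⟨_, rfl⟩
  obtain ⟨U₁, hU1⟩ : ∃ U, U = X₁ - e := ⟨_, rfl⟩
  obtain ⟨U₂, hU2⟩ : ∃ U, U = X₂ - e := ⟨_, rfl⟩
  obtain ⟨U₃, hU3⟩ : ∃ U, U = X₃ - e := ⟨_, rfl⟩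
  have s1 : U₁ + U₂ + U₃ = l ^ 2 - α := by
    rw [hU1, hU2, hU3, hX']; ring
  have s23 : U₁ * U₂ + U₁ * U₃ + U₂ * U₃ = β - 2 * l * ν ∧ U₁ * U₂ * U₃ = ν ^ 2 := by
    by_cases hx : X₁ = X₂
    · have hy : Y₁ ≠ W.toAffine.negY X₂ Y₂ := fun hc => hxy ⟨hx, hc⟩
      have hyy : Y₁ = Y₂ := by
        rcases Affine.Y_eq_of_X_eq h₁.1 h₂.1 hx with hh | hh
        · exact hh
        · exact absurd hh hy
      have hneg : W.toAffine.negY X₁ Y₁ = -Y₁ := by
        simp only [Affine.negY, S.k1, S.k3]; ring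
      have hd : 2 * Y₁ ≠ 0 := by
        intro h0
        apply hy
        rw [← hx, ← hyy, hneg]
        linear_combination h0
      have hs : l * (2 * Y₁) = 3 * (X₁ - e) ^ 2 + 2 * α * (X₁ - e) + β := by
        rw [hl, Affine.slope_of_Y_ne hx hy, hneg, S.k1, S.k2, S.k4]
        have hd' : Y₁ - -Y₁ ≠ 0 := by
          intro h0; apply hd; linear_combination h0
        rw [div_mul_eq_mul_div, div_eq_iff hd']
        ring
      rw [← hU1] at hs e1 hν
      have hU : U₂ = U₁ := by rw [hU1, hU2, hx]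
      have hU3' : U₃ = l ^ 2 - α - 2 * U₁ := by rw [hU] at s1; linear_combination s1
      rw [hU, hU3', hν]
      exact ⟨by linear_combination hs, by linear_combination -e1 + U₁ * hs⟩
    · have hx' : U₁ - U₂ ≠ 0 := by
        rw [hU1, hU2]
        intro h0
        exact hx (by linear_combination h0)
      have hs : l * (X₁ - X₂) = Y₁ - Y₂ := by
        rw [hl, Affine.slope_of_X_ne hx]
        have : X₁ - X₂ ≠ 0 := sub_ne_zero.2 hx
        field_simp
      have hY2 : Y₂ = ν + l * U₂ := by rw [hν, hU2]; linear_combination hs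
      have hY1 : Y₁ = ν + l * U₁ := by rw [hν, hU1]; ring
      have hU3' : U₃ = l ^ 2 - α - U₁ - U₂ := by linear_combination s1
      rw [← hU1, hY1] at e1
      rw [← hU2, hY2] at e2
      rw [hU3']
      constructor
      · apply mul_left_cancel₀ hx'
        linear_combination e1 - e2
      · apply mul_left_cancel₀ hx'
        linear_combination U₂ * e1 - U₁ * e2
  refine ⟨l, ν, ?_⟩
  rw [← hU1, ← hU2, ← hU3]
  obtain ⟨s2, s3⟩ := s23
  have hα' : α = l ^ 2 - (U₁ + U₂ + U₃) := by linear_combination s1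
  have hβ' : β = U₁ * U₂ + U₁ * U₃ + U₂ * U₃ + 2 * l * ν := by linear_combination -s2
  rw [hα', hβ']
  linear_combination (l ^ 2 * ((l ^ 2 - (U₁ + U₂ + U₃)) ^ 2 -
    2 * (U₁ * U₂ + U₁ * U₃ + U₂ * U₃ + 2 * l * ν)) - 2 * (l ^ 2 - (U₁ + U₂ + U₃)) * l * ν +
    U₁ * U₂ * U₃ + ν ^ 2) * s3

end algx

section valx

variable {L : Type} [Field L] [CharZero L] {j : ℕ} {W W' : WeierstrassCurve L} (S : VchD j W W')
  [DecidableEq L] {v : Valuation L ℤᵐ⁰}

/-- the form `u² + 7 w²` is anisotropic -/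
lemma aniso (h7 : v (7 : L) = 1) (hH : ∀ x : L, v (x - 1) < 1 → IsSquare x)
    (hns : ¬ IsSquare (-7 : L)) (u w : L) (h0 : u ^ 2 + 7 * w ^ 2 ≠ 0) :
    ∃ m : ℤ, v (u ^ 2 + 7 * w ^ 2) = exp (2 * m) := by
  by_cases hu : u = 0
  · by_cases hw : w = 0
    · simp [hu, hw] at h0
    · obtain ⟨m, hm⟩ := exists_exp v hw
      refine ⟨m, ?_⟩
      rw [hu, zero_pow two_ne_zero, zero_add, map_mul, h7, one_mul, map_pow, hm, exp_sq]
  · by_cases hw : w = 0
    · obtain ⟨m, hm⟩ := exists_exp v hu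
      exact ⟨m, by rw [hw, zero_pow two_ne_zero, mul_zero, add_zero, map_pow, hm, exp_sq]⟩
    · obtain ⟨m, hm⟩ := exists_exp v hu
      obtain ⟨k, hk⟩ := exists_exp v hw
      have e1 : v (u ^ 2) = exp (2 * m) := by rw [map_pow, hm, exp_sq]
      have e2 : v (7 * w ^ 2) = exp (2 * k) := by rw [map_mul, h7, one_mul, map_pow, hk, exp_sq]
      rcases lt_trichotomy m k with hlt | heq | hgt
      · refine ⟨k, ?_⟩
        rw [v.map_add_eq_of_lt_right, e2]
        rw [e1, e2, exp_lt_exp]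
        omega
      · refine ⟨k, ?_⟩
        by_contra hne
        have hlt : v (u ^ 2 + 7 * w ^ 2) < exp (2 * k) := by
          refine lt_of_le_of_ne ((v.map_add _ _).trans ?_) hne
          rw [e1, e2, heq, max_self]
        apply hns
        have h4 : IsSquare ((u / w) ^ 2 / (-7)) := by
          apply hH
          have e : (u / w) ^ 2 / (-7) - 1 = -((u ^ 2 + 7 * w ^ 2) / (7 * w ^ 2)) := by
            field_simp
            ring
          rw [e, Valuation.map_neg, map_div₀, e2]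
          calc v (u ^ 2 + 7 * w ^ 2) / exp (2 * k) < exp (2 * k) / exp (2 * k) := by
                rw [div_eq_mul_inv, div_eq_mul_inv]
                exact mul_lt_mul_of_pos_right hlt (by simp)
            _ = 1 := div_self exp_ne_zero
        obtain ⟨z, hz⟩ := h4
        have hz0 : z ≠ 0 := by
          rintro rfl
          rw [mul_zero, div_eq_zero_iff] at hz
          rcases hz with h8 | h8
          · rw [pow_eq_zero_iff two_ne_zero, div_eq_zero_iff] at h8
            tauto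
          · norm_num at h8
        refine ⟨u / w / z, ?_⟩
        field_simp at hz ⊢
        linear_combination hz
      · refine ⟨m, ?_⟩
        rw [v.map_add_eq_of_lt_left, e1]
        rw [e1, e2, exp_lt_exp]
        omega

/-- the norm form -/
def nfm (j : ℕ) (X : L) : L :=
  X ^ 2 + 21 * (1 + 4 * (j : L)) * X + 112 * (1 + 4 * (j : L)) ^ 2

omit [DecidableEq L] in
lemma nfm_ne (hns : ¬ IsSquare (-7 : L)) (X : L) : nfm j X ≠ 0 := by
  intro h0
  unfold nfm at h0
  apply hns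
  have hδ0 : 1 + 4 * (j : L) ≠ 0 := dlc_ne L j
  refine ⟨(2 * X + 21 * (1 + 4 * (j : L))) / (1 + 4 * (j : L)), ?_⟩
  field_simp
  linear_combination -4 * h0

/-- the points whose norm has value divisible by four -/
def G4 (h2 : v (2 : L) = 1) (h7 : v (7 : L) = 1) (hH : ∀ x : L, v (x - 1) < 1 → IsSquare x)
    (hns : ¬ IsSquare (-7 : L)) : AddSubgroup W'.toAffine.Point where
  carrier := {P | ∀ X Y h, P = .some X Y h → ∃ k : ℤ, v (nfm j X) = exp (4 * k)}
  zero_mem' := by
    intro X Y h e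
    exact absurd e.symm (Affine.Point.some_ne_zero _)
  neg_mem' := by
    rintro (_ | ⟨X, Y, h⟩) hP
    · intro X Y h e
      exact absurd e.symm (Affine.Point.some_ne_zero _)
    · intro X' Y' h' e
      obtain ⟨h2, e2⟩ := S.wr0.neg_some h
      rw [e2, Affine.Point.some.injEq] at e
      rw [← e.1]
      exact hP X Y h rfl
  add_mem' := by
    rintro (_ | ⟨X₁, Y₁, h₁⟩) (_ | ⟨X₂, Y₂, h₂⟩) hP1 hQ
    · exact hP1
    · exact hQ
    · exact hP1
    · intro X₃ Y₃ h₃ e
      obtain ⟨l, ν, hl⟩ := S.wr0.line3 e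
      simp only [sub_zero] at hl
      change nfm j X₁ * nfm j X₂ * nfm j X₃ = _ at hl
      obtain ⟨k1, hk1⟩ := hP1 X₁ Y₁ h₁ rfl
      obtain ⟨k2, hk2⟩ := hQ X₂ Y₂ h₂ rfl
      set δ : L := 1 + 4 * (j : L) with hδ
      have h4N : 4 * (ν ^ 2 - 21 * δ * l * ν + 112 * δ ^ 2 * l ^ 2) =
          (2 * ν - 21 * δ * l) ^ 2 + 7 * (δ * l) ^ 2 := by ring
      have hN0 : ν ^ 2 - 21 * δ * l * ν + 112 * δ ^ 2 * l ^ 2 ≠ 0 := by
        intro h0
        rw [h0, zero_pow two_ne_zero] at hl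
        exact mul_ne_zero (mul_ne_zero (nfm_ne hns X₁) (nfm_ne hns X₂)) (nfm_ne hns X₃) hl
      obtain ⟨m, hm⟩ := aniso h7 hH hns (2 * ν - 21 * δ * l) (δ * l)
        (by rw [← h4N]; exact mul_ne_zero (by norm_num) hN0)
      have h4 : v (4 : L) = 1 := by
        have e4 : (4 : L) = 2 ^ 2 := by norm_num
        rw [e4, map_pow, h2, one_pow]
      rw [← h4N, map_mul, h4, one_mul] at hm
      obtain ⟨k3, hk3⟩ := exists_exp v (nfm_ne (j := j) hns X₃)
      have h5 := congrArg v hl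
      rw [map_mul, map_mul, map_pow, hm, hk1, hk2, hk3, exp_sq, ← exp_add, ← exp_add, exp_inj] at h5
      exact ⟨m - k1 - k2, by rw [hk3, exp_inj]; omega⟩

variable (h2 : v (2 : L) = 1) (h7 : v (7 : L) = 1) (hD : v (1 + 4 * (j : L)) = exp (-1))

lemma mem_G4 (hH : ∀ x : L, v (x - 1) < 1 → IsSquare x) (hns : ¬ IsSquare (-7 : L)) {X Y : L}
    (h : W'.toAffine.Nonsingular X Y) :
    (.some X Y h : W'.toAffine.Point) ∈ G4 S h2 h7 hH hns ↔ ∃ k : ℤ, v (nfm j X) = exp (4 * k) := by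
  constructor
  · intro h1
    exact h1 X Y h rfl
  · intro h1 X' Y' h' e'
    rw [Affine.Point.some.injEq] at e'
    rw [← e'.1]
    exact h1

include h2 h7 hD in
lemma crit4 (hH : ∀ x : L, v (x - 1) < 1 → IsSquare x) (hns : ¬ IsSquare (-7 : L)) {X Y : L}
    (hE : EeqD j X Y) : 1 ≤ v X ↔ ∃ k : ℤ, v (nfm j X) = exp (4 * k) := by
  obtain ⟨l21, l112⟩ := lbad h2 h7 hD
  have l21' : v (21 * (1 + 4 * (j : L))) ≤ exp (-1) := by
    rw [map_mul, hD]
    calc v (21 : L) * exp (-1) ≤ 1 * exp (-1) := by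
          gcongr
          exact_mod_cast vnat v 21
      _ = exp (-1) := one_mul _
  have l112' : v (112 * (1 + 4 * (j : L)) ^ 2) < 1 := by
    rw [l112, ← exp_zero, exp_lt_exp]; norm_num
  constructor
  · intro h1
    have hX0 : X ≠ 0 := by
      rintro rfl
      rw [map_zero] at h1
      exact absurd h1 (by simp)
    obtain ⟨z, hz⟩ := big_sq h2 h7 hD hH hE h1
    have hz0 : z ≠ 0 := by
      rintro rfl
      rw [mul_zero] at hz
      exact hX0 hz
    obtain ⟨k, hk⟩ := exists_exp v hz0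
    have hvX : v X = exp (2 * k) := by rw [hz, ← pow_two, map_pow, hk, exp_sq]
    refine ⟨k, ?_⟩
    have hX2 : v (X ^ 2) = exp (4 * k) := by
      rw [map_pow, hvX, exp_sq]; congr 1; ring
    have hk0 : 0 ≤ k := by
      rw [hvX, ← exp_zero, exp_le_exp] at h1; omega
    have e : nfm j X = X ^ 2 + (21 * (1 + 4 * (j : L)) * X + 112 * (1 + 4 * (j : L)) ^ 2) := by
      unfold nfm; ring
    rw [e, v.map_add_eq_of_lt_left, hX2]
    rw [hX2]
    apply v.map_add_lt
    · rw [map_mul, hvX]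
      calc v (21 * (1 + 4 * (j : L))) * exp (2 * k) ≤ exp (-1) * exp (2 * k) := by gcongr
        _ = exp (-1 + 2 * k) := (exp_add _ _).symm
        _ < exp (4 * k) := by rw [exp_lt_exp]; omega
    · rw [l112, exp_lt_exp]; omega
  · rintro ⟨k, hk⟩
    by_contra hlt
    push Not at hlt
    have h5 : v (nfm j X) = exp (-2) := by
      by_cases hX0 : X = 0
      · rw [hX0]
        unfold nfm
        rw [← l112]
        congr 1
        ring
      · have h3 := small_val h2 h7 hD hH hns hX0 hE hlt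
        obtain ⟨m, hm⟩ := exists_exp v hX0
        rw [map_div₀, l112, hm, ← exp_sub, ← exp_zero, exp_le_exp] at h3
        unfold nfm
        rw [v.map_add_eq_of_lt_right, l112]
        rw [l112]
        apply v.map_add_lt
        · rw [map_pow, hm, exp_sq, exp_lt_exp]; omega
        · rw [map_mul, hm]
          calc v (21 * (1 + 4 * (j : L))) * exp m ≤ exp (-1) * exp m := by gcongr
            _ = exp (-1 + m) := (exp_add _ _).symm
            _ < exp (-2) := by rw [exp_lt_exp]; omega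
    rw [h5, exp_inj] at hk
    omega

include S h2 h7 hD in
/-- index two at a place above `D` where `-7` is not a square -/
theorem idxD_twoX (hH : ∀ x : L, v (x - 1) < 1 → IsSquare x) (hns : ¬ IsSquare (-7 : L)) :
    (AddSubgroup.closure {P : W.toAffine.Point | ∀ x y h, P = Affine.Point.some x y h →
      1 < v x ∨ v (W.a₁ * y - (3 * x ^ 2 + 2 * W.a₂ * x + W.a₄)) = 1 ∨
      v (2 * y + W.a₁ * x + W.a₃) = 1}).index = 2 := by
  obtain ⟨l21, l112⟩ := lbad h2 h7 hD
  rw [idx_of S (G4 S h2 h7 hH hns) (fun x y h => ?_)]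
  · rw [AddSubgroup.index_eq_two_iff]
    refine ⟨Te S.wr0, fun P => ?_⟩
    have hT : Te S.wr0 ∉ G4 S h2 h7 hH hns := by
      unfold Te
      rw [mem_G4]
      rintro ⟨k, hk⟩
      unfold nfm at hk
      rw [zero_pow two_ne_zero, mul_zero, zero_add, zero_add, l112, exp_inj] at hk
      omega
    by_cases hP : P ∈ G4 S h2 h7 hH hns
    · refine Or.inr ⟨hP, fun h3 => hT ?_⟩
      have := (G4 S h2 h7 hH hns).sub_mem h3 hP
      rwa [add_sub_cancel_left] at this
    · refine Or.inl ⟨?_, hP⟩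
      rcases P with _ | ⟨X, Y, h⟩
      · exact absurd (G4 S h2 h7 hH hns).zero_mem hP
      by_cases hX : X = 0
      · rw [S.wr0.eq_T hX h, S.wr0.T_add_T]
        exact (G4 S h2 h7 hH hns).zero_mem
      · obtain ⟨Y', h', e'⟩ := S.wr0.add_T hX h
        rw [e', mem_G4]
        rw [mem_G4, ← crit4 h2 h7 hD hH hns (S.eqn' h.1), not_le] at hP
        rw [← crit4 h2 h7 hD hH hns (S.eqn' h'.1), sub_zero, zero_add]
        exact small_val h2 h7 hD hH hns hX (S.eqn' h.1) hP
  · rw [sing_redG h2 l21 (by rw [l112, ← exp_zero, exp_lt_exp]; norm_num) (S.eqnA h.1), vFd_some,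
      mem_G4]
    exact crit4 h2 h7 hD hH hns (S.eqn' ((S.ns x y).2 h).1)

end valx

end Pool.Agent.Y698
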